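import Mathlib

/-!
# MP_0ab4d0_co: a closure that is not an interval

There is a graph of order 7 which satisfies `P_4` and `P_6` but not `P_5`. Hence for `n = 7` the
closure of `S = {4, 6}` contains 4 and 6 but not 5, so it is not an interval.
-/

set_option autoImplicit false

namespace Pool.Agent.Results.MP_0ab4d0_co.NotInterval

/-- Property `P_i` of a graph: every two distinct vertices are joined by a path with exactly
`i` vertices. -/
def HasP {n : ℕ} (G : SimpleGraph (Fin n)) (i : ℕ) : Prop :=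
  ∀ u v : Fin n, u ≠ v → ∃ p : G.Walk u v, p.IsPath ∧ p.support.length = i

/-- The closure of `S` for graphs of order `n`: all `j` with `2 ≤ j ≤ n` such that every graph of
order `n` satisfying `P_i` for all `i ∈ S` also satisfies `P_j`. -/
def pathClosure (n : ℕ) (S : Set ℕ) : Set ℕ :=
  {j | 2 ≤ j ∧ j ≤ n ∧ ∀ G : SimpleGraph (Fin n), (∀ i ∈ S, HasP G i) → HasP G j}

/-- adjacency masks of the graph of order 7 -/
def mask (u : Fin 7) : ℕ := ![48, 104, 88, 70, 69, 67, 62] u

/-- the graph of order 7 -/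
def G7 : SimpleGraph (Fin 7) where
  Adj u v := (mask u).testBit v = true
  symm := ⟨by
    have h : ∀ u v : Fin 7, (mask u).testBit v = true → (mask v).testBit u = true := by
      decide +kernel
    exact fun u v huv => h u v huv⟩
  loopless := ⟨by
    have h : ∀ u : Fin 7, ¬ (mask u).testBit u = true := by decide +kernel
    exact fun u hu => h u hu⟩

instance : DecidableRel G7.Adj := fun u v => inferInstanceAs (Decidable ((mask u).testBit v = true))

lemma dec4 : ∀ u v : Fin 7, u ≠ v → ∃ a b : Fin 7, G7.Adj u a ∧ G7.Adj a b ∧ G7.Adj b v ∧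
    [u, a, b, v].Nodup := by
  decide +kernel

lemma dec6 : ∀ u v : Fin 7, u ≠ v → ∃ a, G7.Adj u a ∧ ∃ b, G7.Adj a b ∧ ∃ c, G7.Adj b c ∧
    ∃ d : Fin 7, G7.Adj c d ∧ G7.Adj d v ∧ [u, a, b, c, d, v].Nodup := by
  decide +kernel

lemma dec5 : ∃ u v : Fin 7, u ≠ v ∧ ∀ a b c : Fin 7, G7.Adj u a → G7.Adj a b → G7.Adj b c →
    G7.Adj c v → ¬ [u, a, b, c, v].Nodup := by
  decide +kernel

lemma hasP4 : HasP G7 4 := by
  intro u v huv
  obtain ⟨a, b, h1, h2, h3, hn⟩ := dec4 u v huv
  refine ⟨.cons h1 (.cons h2 (.cons h3 .nil)), ?_, rfl⟩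
  rw [SimpleGraph.Walk.isPath_def]
  exact hn

lemma hasP6 : HasP G7 6 := by
  intro u v huv
  obtain ⟨a, h1, b, h2, c, h3, d, h4, h5, hn⟩ := dec6 u v huv
  refine ⟨.cons h1 (.cons h2 (.cons h3 (.cons h4 (.cons h5 .nil)))), ?_, rfl⟩
  rw [SimpleGraph.Walk.isPath_def]
  exact hn

lemma not_hasP5 : ¬ HasP G7 5 := by
  intro h
  obtain ⟨u, v, huv, hno⟩ := dec5
  obtain ⟨p, hp, hlen⟩ := h u v huv
  rw [SimpleGraph.Walk.isPath_def] at hp
  cases p with
  | nil => simp at hlen
  | cons h1 p => cases p with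
    | nil => simp at hlen
    | cons h2 p => cases p with
      | nil => simp at hlen
      | cons h3 p => cases p with
        | nil => simp at hlen
        | cons h4 p => cases p with
          | nil => exact hno _ _ _ h1 h2 h3 h4 hp
          | cons h5 p => simp at hlen

/-- There are `n ≥ 4`, a set `S ⊆ {4, …, n}` and `a < b < c` with `a` and `c` in the closure of `S`
and `b` not in it; so the closure of `S` is not of the form `{i : r ≤ i ≤ s}`. -/
theorem result :
    ∃ n : ℕ, 4 ≤ n ∧ ∃ S : Set ℕ, S ⊆ Set.Icc 4 n ∧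
      (∃ a b c : ℕ, a < b ∧ b < c ∧ a ∈ pathClosure n S ∧ c ∈ pathClosure n S ∧
        b ∉ pathClosure n S) ∧
      ¬ ∃ r s : ℕ, pathClosure n S = Set.Icc r s := by
  have h4 : 4 ∈ pathClosure 7 {4, 6} := ⟨by norm_num, by norm_num, fun G h => h 4 (by simp)⟩
  have h6 : 6 ∈ pathClosure 7 {4, 6} := ⟨by norm_num, by norm_num, fun G h => h 6 (by simp)⟩
  have h5 : 5 ∉ pathClosure 7 {4, 6} := by
    rintro ⟨-, -, h⟩
    refine not_hasP5 (h G7 ?_)
    intro i hi
    rcases hi with rfl | hi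
    · exact hasP4
    · rw [Set.mem_singleton_iff.1 hi]; exact hasP6
  refine ⟨7, by norm_num, {4, 6}, ?_, ⟨4, 5, 6, by norm_num, by norm_num, h4, h6, h5⟩, ?_⟩
  · intro i hi
    rcases hi with rfl | hi
    · constructor <;> norm_num
    · rw [Set.mem_singleton_iff.1 hi]; constructor <;> norm_num
  · rintro ⟨r, s, h⟩
    rw [h] at h4 h5 h6
    exact h5 ⟨h4.1.trans (by norm_num), le_trans (by norm_num) h6.2⟩

end Pool.Agent.Results.MP_0ab4d0_co.NotInterval
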